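import Pool.Agent.Zk52.OZ.DescA
import Pool.Agent.Zk62.OZ.Stm

/-!
# DESC: descent of smooth projective models to large finite fields
-/

set_option autoImplicit false

namespace Pool.Agent.Zk52.OZ

open Pool.Agent.Zk62.OZ

theorem t_DESC : S_DESC := fun κ K _ _ _ hκ hK F hFg hF => desc κ K hκ hK F hFg hF

end Pool.Agent.Zk52.OZ
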