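import Mathlib

/-!
# Descent of smooth charts along an extension of the base field
-/

set_option autoImplicit false
set_option linter.unusedVariables false
set_option linter.unusedSectionVars false
set_option linter.style.haveILetI false

open scoped TensorProduct

noncomputable section

namespace Pool.Agent.Zk52.OZ

/-- smoothness of the algebra generated by `x` descends to a field of definition of the relations -/
theorem smooth_desc {k κ K : Type} [Field k] [Field κ] [Field K] [Algebra k κ] [Algebra κ K]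
    [Algebra k K] [IsScalarTower k κ K] {ι : Type} (x : ι → K)
    (hsm : Algebra.Smooth κ (Algebra.adjoin κ (Set.range x)))
    (s : Set (MvPolynomial ι κ))
    (hs : Ideal.span s = RingHom.ker (MvPolynomial.aeval (R := κ) x))
    (hk : ∀ f ∈ s, ∃ g : MvPolynomial ι k, MvPolynomial.map (algebraMap k κ) g = f) :
    Algebra.Smooth k (Algebra.adjoin k (Set.range x)) := by
  classical
  let A₂ : Subalgebra k K := Algebra.adjoin k (Set.range x)
  let x₂ : ι → A₂ := fun i => ⟨x i, Algebra.subset_adjoin ⟨i, rfl⟩⟩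
  let π : MvPolynomial ι k →ₐ[k] A₂ := MvPolynomial.aeval x₂
  have hπv : ∀ g, ((π g : A₂) : K) = MvPolynomial.aeval x g := by
    intro g
    have : A₂.val.comp π = MvPolynomial.aeval x := by
      apply MvPolynomial.algHom_ext
      intro i
      simp [π, x₂]
    exact DFunLike.congr_fun this g
  have hπs : Function.Surjective π := by
    rintro ⟨a, ha⟩
    have h1 : a ∈ (MvPolynomial.aeval (R := k) x).range := by
      rw [← Algebra.adjoin_range_eq_range_aeval]
      exact ha
    obtain ⟨g, hg⟩ := h1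
    refine ⟨g, Subtype.ext ?_⟩
    rw [hπv]
    exact hg
  let Φ : κ ⊗[k] A₂ →ₐ[κ] K :=
    Algebra.TensorProduct.lift (Algebra.ofId κ K) A₂.val (fun _ _ => Commute.all _ _)
  have hΦ : ∀ (c : κ) (a : A₂), Φ (c ⊗ₜ a) = algebraMap κ K c * a := by
    intro c a
    simp [Φ, Algebra.ofId_apply]
  let θ : κ ⊗[k] MvPolynomial ι k →ₐ[κ] κ ⊗[k] A₂ :=
    Algebra.TensorProduct.map (AlgHom.id κ κ) π
  have hθs : Function.Surjective θ := by
    have h1 : Function.Surjective (TensorProduct.map (LinearMap.id : κ →ₗ[k] κ) π.toLinearMap) :=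
      TensorProduct.map_surjective (fun c => ⟨c, rfl⟩) hπs
    intro z
    obtain ⟨w, hw⟩ := h1 z
    exact ⟨w, hw⟩
  let e := MvPolynomial.algebraTensorAlgEquiv (σ := ι) k κ
  have hΦθ : ∀ P : MvPolynomial ι κ, Φ (θ (e.symm P)) = MvPolynomial.aeval x P := by
    intro P
    have : (Φ.comp θ).comp e.symm.toAlgHom = MvPolynomial.aeval x := by
      apply MvPolynomial.algHom_ext
      intro i
      have h1 : e.symm (MvPolynomial.X i) = 1 ⊗ₜ MvPolynomial.X i :=
        MvPolynomial.algebraTensorAlgEquiv_symm_X k κ i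
      change Φ (θ (e.symm (MvPolynomial.X i))) = _
      rw [h1, MvPolynomial.aeval_X]
      have h2 : θ (1 ⊗ₜ MvPolynomial.X i) = 1 ⊗ₜ x₂ i := by
        simp [θ, π]
      rw [h2, hΦ, map_one, one_mul]
    exact DFunLike.congr_fun this P
  have hker : ∀ P ∈ Ideal.span s, θ (e.symm P) = 0 := by
    intro P hP
    have h1 : Ideal.span s ≤ RingHom.ker (θ.comp e.symm.toAlgHom) := by
      rw [Ideal.span_le]
      intro f hf
      obtain ⟨g, rfl⟩ := hk f hf
      have h2 : MvPolynomial.map (algebraMap k κ) g ∈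
          RingHom.ker (MvPolynomial.aeval (R := κ) x) := hs ▸ Ideal.subset_span hf
      rw [RingHom.mem_ker, MvPolynomial.aeval_map_algebraMap] at h2
      have h3 : π g = 0 := Subtype.ext (by rw [hπv]; exact h2)
      have h4 : e.symm (MvPolynomial.map (algebraMap k κ) g) = 1 ⊗ₜ g :=
        MvPolynomial.algebraTensorAlgEquiv_symm_map k κ g
      change θ (e.symm (MvPolynomial.map (algebraMap k κ) g)) = 0
      rw [h4]
      simp [θ, h3]
    exact h1 hP
  have hinj : Function.Injective Φ := by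
    rw [injective_iff_map_eq_zero]
    intro z hz
    obtain ⟨w, rfl⟩ := hθs z
    have h1 := hΦθ (e w)
    rw [e.symm_apply_apply, hz] at h1
    have h2 : e w ∈ Ideal.span s := by
      rw [hs, RingHom.mem_ker]
      exact h1.symm
    have h3 := hker _ h2
    rwa [e.symm_apply_apply] at h3
  have hrange : Φ.range = Algebra.adjoin κ (Set.range x) := by
    apply le_antisymm
    · rintro _ ⟨z, rfl⟩
      change Φ z ∈ _
      induction z using TensorProduct.induction_on with
      | zero =>
        rw [map_zero]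
        exact zero_mem _
      | tmul c a =>
        rw [hΦ]
        refine mul_mem (Subalgebra.algebraMap_mem _ _) ?_
        have h1 : A₂ ≤ (Algebra.adjoin κ (Set.range x)).restrictScalars k :=
          Algebra.adjoin_le fun y hy => Algebra.subset_adjoin hy
        exact h1 a.2
      | add a b ha hb =>
        rw [map_add]
        exact add_mem ha hb
    · refine Algebra.adjoin_le ?_
      rintro _ ⟨i, rfl⟩
      refine ⟨1 ⊗ₜ x₂ i, ?_⟩
      change Φ _ = _
      rw [hΦ, map_one, one_mul]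
  have e2 : Algebra.adjoin κ (Set.range x) ≃ₐ[κ] κ ⊗[k] A₂ :=
    (Subalgebra.equivOfEq _ _ hrange.symm).trans (AlgEquiv.ofInjective Φ hinj).symm
  have : Algebra.Smooth κ (κ ⊗[k] A₂) := Algebra.Smooth.of_equiv e2
  exact Algebra.Smooth.of_smooth_tensorProduct_of_faithfullyFlat (R := k) (S := A₂) κ

/-- the chart in a subfield -/
theorem chart_equiv {k K : Type} [Field k] [Field K] [Algebra k K] (F₂ : Subfield K)
    [Algebra k F₂] [IsScalarTower k F₂ K] {ι : Type} (x : ι → F₂) :
    Nonempty (Algebra.adjoin k (Set.range fun i => (x i : K)) ≃ₐ[k]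
      Algebra.adjoin k (Set.range x)) := by
  let φ : F₂ →ₐ[k] K := IsScalarTower.toAlgHom k F₂ K
  have hφ : Function.Injective φ := (algebraMap F₂ K).injective
  have h1 : (Algebra.adjoin k (Set.range x)).map φ =
      Algebra.adjoin k (Set.range fun i => (x i : K)) := by
    rw [AlgHom.map_adjoin, ← Set.range_comp]
    rfl
  exact ⟨(Subalgebra.equivOfEq _ _ h1.symm).trans
    ((Algebra.adjoin k (Set.range x)).equivMapOfInjective φ hφ).symm⟩

/-- fractions in a subfield -/
theorem chart_frac {k K : Type} [Field k] [Field K] [Algebra k K] (F₂ : Subfield K)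
    [Algebra k F₂] [IsScalarTower k F₂ K] {ι : Type} (x : ι → F₂)
    (h : ∀ z ∈ F₂, z ∈ IntermediateField.adjoin k (Set.range fun i => (x i : K))) :
    IsFractionRing (Algebra.adjoin k (Set.range x)) F₂ := by
  let φ : F₂ →ₐ[k] K := IsScalarTower.toAlgHom k F₂ K
  have hφ : Function.Injective φ := (algebraMap F₂ K).injective
  have h1 : (Algebra.adjoin k (Set.range x)).map φ =
      Algebra.adjoin k (Set.range fun i => (x i : K)) := by
    rw [AlgHom.map_adjoin, ← Set.range_comp]
    rfl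
  refine IsFractionRing.of_field _ _ fun z => ?_
  obtain ⟨r, hr, s, hs, hz⟩ := IntermediateField.mem_adjoin_iff_div.mp (h z z.2)
  rw [← h1] at hr hs
  obtain ⟨r, hr, rfl⟩ := hr
  obtain ⟨s, hs, rfl⟩ := hs
  refine ⟨⟨r, hr⟩, ⟨s, hs⟩, hφ ?_⟩
  rw [map_div₀]
  exact hz

/-- smooth projective models (local copy of the definition) -/
def HasSm' (k E : Type) [Field k] [Field E] [Algebra k E] : Prop :=
  ∃ (N : ℕ) (H : Fin (N + 1) → E), (∀ i, H i ≠ 0) ∧ ∀ i,
    Algebra.Smooth k (Algebra.adjoin k (Set.range fun j => H j / H i)) ∧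
    IsFractionRing (Algebra.adjoin k (Set.range fun j => H j / H i)) E

theorem core {k κ K : Type} [Field k] [Field κ] [Field K] [Algebra k κ] [Algebra κ K]
    [Algebra k K] [IsScalarTower k κ K] (F₂ : Subfield K) [Algebra k F₂] [IsScalarTower k F₂ K]
    {N : ℕ} (H : Fin (N + 1) → K) (h0 : ∀ i, H i ≠ 0) (hF : ∀ j, H j / H 0 ∈ F₂)
    (hsm : ∀ i, Algebra.Smooth κ (Algebra.adjoin κ (Set.range fun j => H j / H i)))
    (hfin : ∀ i, ∃ s : Set (MvPolynomial (Fin (N + 1)) κ),
      Ideal.span s = RingHom.ker (MvPolynomial.aeval (R := κ) fun j => H j / H i) ∧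
      ∀ f ∈ s, ∃ g : MvPolynomial (Fin (N + 1)) k, MvPolynomial.map (algebraMap k κ) g = f)
    (hfr : ∀ i, ∀ z ∈ F₂, z ∈ IntermediateField.adjoin k (Set.range fun j => H j / H i)) :
    HasSm' k F₂ := by
  refine ⟨N, fun j => ⟨H j / H 0, hF j⟩, fun i h => ?_, fun i => ?_⟩
  · have := congrArg Subtype.val h
    exact div_ne_zero (h0 i) (h0 0) this
  · have h1 : (fun j => (((⟨H j / H 0, hF j⟩ : F₂) / (⟨H i / H 0, hF i⟩ : F₂) : F₂) : K)) =
        fun j => H j / H i := by
      funext j
      change H j / H 0 / (H i / H 0) = _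
      exact div_div_div_cancel_right₀ (h0 0) _ _
    constructor
    · obtain ⟨e⟩ := chart_equiv (k := k) F₂
        (fun j => (⟨H j / H 0, hF j⟩ : F₂) / (⟨H i / H 0, hF i⟩ : F₂))
      rw [h1] at e
      obtain ⟨s, hs, hk⟩ := hfin i
      have := smooth_desc (k := k) (fun j => H j / H i) (hsm i) s hs hk
      exact Algebra.Smooth.of_equiv e
    · refine chart_frac (k := k) F₂
        (fun j => (⟨H j / H 0, hF j⟩ : F₂) / (⟨H i / H 0, hF i⟩ : F₂)) ?_
      rw [h1]
      exact hfr i

/-- the finite subfields -/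
abbrev FS (κ : Type) [Field κ] : Type := {k : Subfield κ // Finite k}

section

variable {κ K : Type} [Field κ] [Field K] [Algebra κ K]
  (hκ : ∀ s : Finset κ, ∃ k : Subfield κ, Finite k ∧ (s : Set κ) ⊆ k)

include hκ

theorem fs_nonempty : Nonempty (FS κ) := by
  obtain ⟨k, hk, -⟩ := hκ ∅
  exact ⟨⟨k, hk⟩⟩

theorem fs_dir : IsDirectedOrder (FS κ) := by
  classical
  constructor
  rintro ⟨k, hk⟩ ⟨k', hk'⟩
  have f1 : (k : Set κ).Finite := hk
  have f2 : (k' : Set κ).Finite := hk'
  obtain ⟨k'', h1, h2⟩ := hκ (f1.toFinset ∪ f2.toFinset)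
  rw [Finset.coe_union, Set.Finite.coe_toFinset, Set.Finite.coe_toFinset] at h2
  exact ⟨⟨k'', h1⟩, Set.subset_union_left.trans h2, Set.subset_union_right.trans h2⟩

/-- every element is eventually in the subfield -/
theorem ev_mem (F : Subfield K) (hF : F ⊔ (algebraMap κ K).fieldRange = ⊤) (z : K) :
    ∀ᶠ k : FS κ in Filter.atTop, z ∈ F ⊔ k.1.map (algebraMap κ K) := by
  haveI := fs_nonempty hκ
  haveI := fs_dir hκ
  have mono : ∀ k k' : FS κ, k ≤ k' →
      F ⊔ k.1.map (algebraMap κ K) ≤ F ⊔ k'.1.map (algebraMap κ K) := by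
    intro k k' h
    refine sup_le_sup_left ?_ _
    rintro _ ⟨c, hc, rfl⟩
    exact ⟨c, h hc, rfl⟩
  have hd : Directed (· ≤ ·) fun k : FS κ => F ⊔ k.1.map (algebraMap κ K) := by
    intro k k'
    obtain ⟨k'', h1, h2⟩ := exists_ge_ge k k'
    exact ⟨k'', mono _ _ h1, mono _ _ h2⟩
  have h1 : z ∈ ⨆ k : FS κ, F ⊔ k.1.map (algebraMap κ K) := by
    have h2 : (⊤ : Subfield K) ≤ ⨆ k : FS κ, F ⊔ k.1.map (algebraMap κ K) := by
      rw [← hF]
      refine sup_le ?_ ?_
      · obtain ⟨k⟩ := fs_nonempty hκ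
        exact le_sup_left.trans (le_iSup (fun k : FS κ => F ⊔ k.1.map (algebraMap κ K)) k)
      · rintro _ ⟨c, rfl⟩
        obtain ⟨k, hk, hc⟩ := hκ {c}
        have h3 : algebraMap κ K c ∈ F ⊔ k.map (algebraMap κ K) :=
          (le_sup_right : k.map (algebraMap κ K) ≤ _) ⟨c, hc (by simp), rfl⟩
        exact (le_iSup (fun k : FS κ => F ⊔ k.1.map (algebraMap κ K)) ⟨k, hk⟩) h3
    exact h2 trivial
  obtain ⟨k, hk⟩ := (Subfield.mem_iSup_of_directed hd).mp h1
  exact Filter.eventually_atTop.mpr ⟨k, fun k' h => mono _ _ h hk⟩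

theorem ev_poly {ι : Type} (f : MvPolynomial ι κ) :
    ∀ᶠ k : FS κ in Filter.atTop, ∃ g : MvPolynomial ι k.1, MvPolynomial.map k.1.subtype g = f := by
  classical
  haveI := fs_nonempty hκ
  haveI := fs_dir hκ
  obtain ⟨k, hk, hs⟩ := hκ (f.support.image fun m => f.coeff m)
  refine Filter.eventually_atTop.mpr ⟨⟨k, hk⟩, fun k' h => ?_⟩
  have hc : ∀ m ∈ f.support, f.coeff m ∈ k'.1 := fun m hm =>
    h (hs (Finset.mem_coe.mpr (Finset.mem_image_of_mem _ hm)))
  refine ⟨∑ m ∈ f.support.attach, MvPolynomial.monomial m.1 ⟨f.coeff m.1, hc m.1 m.2⟩, ?_⟩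
  rw [map_sum]
  have h1 : ∀ m : {m // m ∈ f.support}, MvPolynomial.map k'.1.subtype
      (MvPolynomial.monomial m.1 (⟨f.coeff m.1, hc m.1 m.2⟩ : k'.1)) =
      MvPolynomial.monomial m.1 (f.coeff m.1) := by
    intro m
    rw [MvPolynomial.map_monomial]
    rfl
  rw [Finset.sum_congr rfl fun m _ => h1 m,
    Finset.sum_attach f.support fun m => MvPolynomial.monomial m (f.coeff m)]
  exact f.support_sum_monomial_coeff

end

/-- descent of smooth projective models to large finite fields -/
theorem desc (κ K : Type) [Field κ] [Field K] [Algebra κ K]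
    (hκ : ∀ s : Finset κ, ∃ k : Subfield κ, Finite k ∧ (s : Set κ) ⊆ k) (hK : HasSm' κ K)
    (F : Subfield K) (hFg : ∃ S : Finset K, Subfield.closure (S : Set K) = F)
    (hF : F ⊔ (algebraMap κ K).fieldRange = ⊤) :
    ∃ k₁ : Subfield κ, Finite k₁ ∧ ∀ k₂ : Subfield κ, Finite k₂ → k₁ ≤ k₂ →
      ∃ _ : Algebra k₂ ↥(F ⊔ k₂.map (algebraMap κ K)),
        HasSm' k₂ ↥(F ⊔ k₂.map (algebraMap κ K)) := by
  classical
  haveI := fs_nonempty hκ
  haveI := fs_dir hκ
  obtain ⟨S, rfl⟩ := hFg
  obtain ⟨N, H, h0, hH⟩ := hK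
  have hcl : ∀ i, Subfield.closure (Set.range fun j => H j / H i) ⊔
      (algebraMap κ K).fieldRange = ⊤ := by
    intro i
    rw [eq_top_iff]
    rintro z -
    have hfr := (hH i).2
    obtain ⟨a, b, hb, rfl⟩ := IsFractionRing.div_surjective
      (A := Algebra.adjoin κ (Set.range fun j => H j / H i)) z
    have key : ∀ a ∈ Algebra.adjoin κ (Set.range fun j => H j / H i),
        a ∈ Subfield.closure (Set.range fun j => H j / H i) ⊔ (algebraMap κ K).fieldRange := by
      intro a ha
      induction ha using Algebra.adjoin_induction with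
      | mem x hx =>
        have hle : Subfield.closure (Set.range fun j => H j / H i) ≤
          Subfield.closure (Set.range fun j => H j / H i) ⊔ (algebraMap κ K).fieldRange := le_sup_left
        exact hle (Subfield.subset_closure hx)
      | algebraMap r =>
        have hle : (algebraMap κ K).fieldRange ≤
          Subfield.closure (Set.range fun j => H j / H i) ⊔ (algebraMap κ K).fieldRange := le_sup_right
        exact hle ⟨r, rfl⟩
      | add x y _ _ hx hy => exact add_mem hx hy
      | mul x y _ _ hx hy => exact mul_mem hx hy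
    exact div_mem (key a a.2) (key b b.2)
  have hgen : ∀ i, ∃ s : Finset (MvPolynomial (Fin (N + 1)) κ), Ideal.span (s : Set _) =
      RingHom.ker (MvPolynomial.aeval (R := κ) fun j => H j / H i) := fun i =>
    (IsNoetherian.noetherian (RingHom.ker (MvPolynomial.aeval (R := κ) fun j => H j / H i)))
  choose s hs using hgen
  have e1 : ∀ᶠ k : FS κ in Filter.atTop, ∀ j,
      H j / H 0 ∈ Subfield.closure (S : Set K) ⊔ k.1.map (algebraMap κ K) :=
    Filter.eventually_all.mpr fun j => ev_mem hκ _ hF _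
  have e2 : ∀ᶠ k : FS κ in Filter.atTop, ∀ i, ∀ z ∈ S,
      z ∈ Subfield.closure (Set.range fun j => H j / H i) ⊔ k.1.map (algebraMap κ K) :=
    Filter.eventually_all.mpr fun i => (Filter.eventually_all_finset S).mpr fun z _ =>
      ev_mem hκ _ (hcl i) _
  have e3 : ∀ᶠ k : FS κ in Filter.atTop, ∀ i, ∀ f ∈ s i,
      ∃ g : MvPolynomial (Fin (N + 1)) k.1, MvPolynomial.map k.1.subtype g = f :=
    Filter.eventually_all.mpr fun i => (Filter.eventually_all_finset (s i)).mpr fun f _ =>
      ev_poly hκ f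
  obtain ⟨k₁, hk₁⟩ := Filter.eventually_atTop.mp (e1.and (e2.and e3))
  refine ⟨k₁.1, k₁.2, fun k₂ hk₂ h12 => ?_⟩
  obtain ⟨c1, c2, c3⟩ := hk₁ ⟨k₂, hk₂⟩ h12
  haveI t1 : IsScalarTower k₂ κ K := inferInstance
  letI a3 : Algebra k₂ ↥(Subfield.closure (S : Set K) ⊔ k₂.map (algebraMap κ K)) :=
    RingHom.toAlgebra (((algebraMap κ K).comp k₂.subtype).codRestrict
      (Subfield.closure (S : Set K) ⊔ k₂.map (algebraMap κ K)) fun c =>
        (le_sup_right : k₂.map (algebraMap κ K) ≤ _) ⟨c, c.2, rfl⟩)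
  haveI t2 : IsScalarTower k₂ ↥(Subfield.closure (S : Set K) ⊔ k₂.map (algebraMap κ K)) K :=
    IsScalarTower.of_algebraMap_eq fun _ => rfl
  refine ⟨a3, core (κ := κ) (Subfield.closure (S : Set K) ⊔ k₂.map (algebraMap κ K)) H h0 c1
    (fun i => (hH i).1) (fun i => ⟨s i, hs i, fun f hf => c3 i f hf⟩) fun i => ?_⟩
  have h3 : Subfield.closure (Set.range fun j => H j / H i) ⊔ k₂.map (algebraMap κ K) ≤
      (IntermediateField.adjoin k₂ (Set.range fun j => H j / H i)).toSubfield := by
    refine sup_le (Subfield.closure_le.mpr (IntermediateField.subset_adjoin _ _)) ?_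
    rintro _ ⟨c, hc, rfl⟩
    exact (IntermediateField.adjoin k₂ (Set.range fun j => H j / H i)).algebraMap_mem ⟨c, hc⟩
  have h4 : Subfield.closure (S : Set K) ⊔ k₂.map (algebraMap κ K) ≤
      (IntermediateField.adjoin k₂ (Set.range fun j => H j / H i)).toSubfield := by
    refine sup_le (Subfield.closure_le.mpr fun z hz => h3 (c2 i z hz)) (le_sup_right.trans h3)
  exact fun z hz => h4 hz

end Pool.Agent.Zk52.OZ
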